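import Mathlib

set_option autoImplicit false
set_option linter.unusedSectionVars false

/-!
# The set of turbulent points is a `G_δ` set

Fix `U` and `V`. If the local orbit of `x` is somewhere dense, then `x` lies in the interior `W x` of
its closure, and two sets `W x`, `W y` of this kind are equal or disjoint, since the closure of a
local orbit contains the local orbits of its points in `U`. For each fixed open `W`, the points of
`W` with a local orbit that is dense in `W` form a `G_δ` set, and a union of `G_δ` subsets of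
pairwise disjoint open sets is a `G_δ` set.
-/

open Set Filter Topology TopologicalSpace

namespace Pool.Agent.Results.MP_6b7ad2_lc.TurbulentGdelta

universe u v

section Defs

variable (G : Type u) [Group G] [TopologicalSpace G] {X : Type v} [TopologicalSpace X]
  [MulAction G X]

variable {G} in
/-- The `(U, V)`-local orbit of the point `x` of `U`: the points that can be reached from `x` by
finitely many steps `a ↦ g • a` with `g ∈ V`, without leaving `U`. -/
def LocalOrbit (x : X) (U : Set X) (V : Set G) : Set X :=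
  {y | Relation.ReflTransGen (fun a b => b ∈ U ∧ ∃ g ∈ V, g • a = b) x y}

/-- The point `x` is turbulent: for every open `U` containing `x` and every symmetric open
neighbourhood `V` of the identity, the closure of the local orbit of `x` has nonempty interior. -/
def Turbulent (x : X) : Prop :=
  ∀ U : Set X, IsOpen U → x ∈ U → ∀ V : Set G, IsOpen V → (1 : G) ∈ V → (∀ g ∈ V, g⁻¹ ∈ V) →
    (interior (closure (LocalOrbit x U V))).Nonempty

end Defs

section

variable {G : Type u} [Group G] [TopologicalSpace G] {X : Type v} [TopologicalSpace X]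
  [MulAction G X]

theorem self_mem (x : X) (U : Set X) (V : Set G) : x ∈ LocalOrbit x U V :=
  Relation.ReflTransGen.refl

theorem orbit_sub {x : X} {U : Set X} {V : Set G} (hx : x ∈ U) : LocalOrbit x U V ⊆ U := by
  intro y hy
  induction hy with
  | refl => exact hx
  | tail _ h _ => exact h.1

theorem orbit_trans {x y z : X} {U : Set X} {V : Set G} (h : y ∈ LocalOrbit x U V)
    (h' : z ∈ LocalOrbit y U V) : z ∈ LocalOrbit x U V :=
  Relation.ReflTransGen.trans h h'

theorem orbit_symm {x y : X} {U : Set X} {V : Set G} (hV : ∀ g ∈ V, g⁻¹ ∈ V) (hx : x ∈ U)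
    (h : y ∈ LocalOrbit x U V) : x ∈ LocalOrbit y U V := by
  have key : y ∈ U ∧ x ∈ LocalOrbit y U V := by
    induction h with
    | refl => exact ⟨hx, self_mem _ _ _⟩
    | @tail b c hb hbc ih =>
      refine ⟨hbc.1, ?_⟩
      obtain ⟨g, hg, hgc⟩ := hbc.2
      refine Relation.ReflTransGen.head ⟨ih.1, g⁻¹, hV g hg, ?_⟩ ih.2
      rw [← hgc, inv_smul_smul]
  exact key.2

theorem orbit_mono {x : X} {U U' : Set X} {V V' : Set G} (hU : U ⊆ U') (hV : V ⊆ V') :
    LocalOrbit x U V ⊆ LocalOrbit x U' V' := by
  intro y hy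
  induction hy with
  | refl => exact self_mem _ _ _
  | tail _ h ih =>
    obtain ⟨h1, g, hg, h2⟩ := h
    exact Relation.ReflTransGen.tail ih ⟨hU h1, g, hV hg, h2⟩

variable [ContinuousConstSMul G X]

/-- The closure of a local orbit is closed under the steps. -/
theorem step_closure {x z : X} {U : Set X} {V : Set G} (hU : IsOpen U)
    (hz : z ∈ closure (LocalOrbit x U V)) {g : G} (hg : g ∈ V) (hgz : g • z ∈ U) :
    g • z ∈ closure (LocalOrbit x U V) := by
  rw [mem_closure_iff]
  intro N hN hzN
  have h1 : IsOpen ((fun y : X => g • y) ⁻¹' (N ∩ U)) :=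
    (hN.inter hU).preimage (continuous_const_smul g)
  obtain ⟨w, hw1, hw2⟩ := mem_closure_iff.1 hz _ h1 ⟨hzN, hgz⟩
  exact ⟨g • w, hw1.1, Relation.ReflTransGen.tail hw2 ⟨hw1.2, g, hg, rfl⟩⟩

theorem orbit_sub_closure {x z : X} {U : Set X} {V : Set G} (hU : IsOpen U)
    (hz : z ∈ closure (LocalOrbit x U V)) : LocalOrbit z U V ⊆ closure (LocalOrbit x U V) := by
  intro y hy
  induction hy with
  | refl => exact hz
  | tail _ h ih =>
    obtain ⟨g, hg, rfl⟩ := h.2
    exact step_closure hU ih hg h.1

theorem closure_sub_closure {x z : X} {U : Set X} {V : Set G} (hU : IsOpen U)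
    (hz : z ∈ closure (LocalOrbit x U V)) :
    closure (LocalOrbit z U V) ⊆ closure (LocalOrbit x U V) :=
  closure_minimal (orbit_sub_closure hU hz) isClosed_closure

/-- The interior of the closure of a local orbit is closed under the steps. -/
theorem step_interior {x z : X} {U : Set X} {V : Set G} (hU : IsOpen U) (hzU : z ∈ U)
    (hz : z ∈ interior (closure (LocalOrbit x U V))) {g : G} (hg : g ∈ V) (hgz : g • z ∈ U) :
    g • z ∈ interior (closure (LocalOrbit x U V)) := by
  have h1 : IsOpen ((fun y : X => g⁻¹ • y) ⁻¹' (interior (closure (LocalOrbit x U V)) ∩ U)) :=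
    (isOpen_interior.inter hU).preimage (continuous_const_smul g⁻¹)
  refine mem_interior.2 ⟨_ ∩ U, ?_, h1.inter hU, ?_, hgz⟩
  · rintro y ⟨hy, hyU⟩
    have h2 : g • (g⁻¹ • y) = y := smul_inv_smul g y
    have h3 := step_closure (g := g) hU (interior_subset hy.1) hg (by rw [h2]; exact hyU)
    rwa [h2] at h3
  · show g⁻¹ • (g • z) ∈ interior (closure (LocalOrbit x U V)) ∩ U
    rw [inv_smul_smul]
    exact ⟨hz, hzU⟩

/-- If the local orbit of `x` is somewhere dense then it is dense in a neighbourhood of `x`. -/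
theorem mem_interior_of_nonempty {x : X} {U : Set X} {V : Set G} (hU : IsOpen U) (hx : x ∈ U)
    (hV : ∀ g ∈ V, g⁻¹ ∈ V) (h : (interior (closure (LocalOrbit x U V))).Nonempty) :
    x ∈ interior (closure (LocalOrbit x U V)) := by
  obtain ⟨z, hz⟩ := h
  obtain ⟨y, hy1, hy2⟩ := mem_closure_iff.1 (interior_subset hz) _ isOpen_interior hz
  have h1 : x ∈ LocalOrbit y U V := orbit_symm hV hx hy2
  have key : ∀ w, w ∈ LocalOrbit y U V →
      w ∈ U ∧ w ∈ interior (closure (LocalOrbit x U V)) := by
    intro w hw
    induction hw with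
    | refl => exact ⟨orbit_sub hx hy2, hy1⟩
    | tail _ h ih =>
      obtain ⟨g, hg, rfl⟩ := h.2
      exact ⟨h.1, step_interior hU ih.1 ih.2 hg h.1⟩
  exact (key x h1).2

/-- The interiors of the closures of two local orbits with the above property are equal or
disjoint. -/
theorem interior_eq {x y : X} {U : Set X} {V : Set G} (hU : IsOpen U) (hx : x ∈ U) (hy : y ∈ U)
    (hV : ∀ g ∈ V, g⁻¹ ∈ V)
    (h : (interior (closure (LocalOrbit x U V)) ∩
      interior (closure (LocalOrbit y U V))).Nonempty) :
    interior (closure (LocalOrbit x U V)) = interior (closure (LocalOrbit y U V)) := by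
  have key : ∀ x y : X, x ∈ U → (interior (closure (LocalOrbit x U V)) ∩
      interior (closure (LocalOrbit y U V))).Nonempty →
      closure (LocalOrbit x U V) ⊆ closure (LocalOrbit y U V) := by
    rintro x y hx ⟨z, hz1, hz2⟩
    obtain ⟨w, hw1, hw2⟩ := mem_closure_iff.1 (interior_subset hz1) _
      (isOpen_interior.inter isOpen_interior) ⟨hz1, hz2⟩
    have h1 : x ∈ LocalOrbit w U V := orbit_symm hV hx hw2
    have h2 : LocalOrbit w U V ⊆ closure (LocalOrbit y U V) :=
      orbit_sub_closure hU (interior_subset hw1.2)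
    exact closure_sub_closure hU (h2 h1)
  refine Subset.antisymm (interior_mono (key x y hx h)) (interior_mono (key y x hy ?_))
  rwa [inter_comm]

/-- The points with a local orbit that meets a given open set form an open set. -/
theorem isOpen_hit {U B : Set X} {V : Set G} (hU : IsOpen U) (hB : IsOpen B) :
    IsOpen {x : X | x ∈ U ∧ (LocalOrbit x U V ∩ B).Nonempty} := by
  rw [isOpen_iff_mem_nhds]
  rintro x ⟨hx, y, hxy, hyB⟩
  have hxy' : Relation.ReflTransGen (fun a b => b ∈ U ∧ ∃ g ∈ V, g • a = b) x y := hxy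
  clear hxy
  induction hxy' using Relation.ReflTransGen.head_induction_on with
  | refl =>
    filter_upwards [hU.mem_nhds hx, hB.mem_nhds hyB] with z hz1 hz2
    exact ⟨hz1, z, self_mem _ _ _, hz2⟩
  | @head a c h _ ih =>
    obtain ⟨hc, g, hg, rfl⟩ := h
    have h1 : ContinuousAt (fun z : X => g • z) a := (continuous_const_smul g).continuousAt
    filter_upwards [hU.mem_nhds hx, h1 (ih hc)] with z hz1 hz2
    obtain ⟨hz3, w, hw1, hw2⟩ := hz2
    exact ⟨hz1, w, Relation.ReflTransGen.head ⟨hz3, g, hg, rfl⟩ hw1, hw2⟩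

/-- For fixed `U` and `V`, the points of `U` with a somewhere dense local orbit form a `G_δ`
set. -/
theorem isGδ_local [SecondCountableTopology X] {U : Set X} {V : Set G} (hU : IsOpen U)
    (hV : ∀ g ∈ V, g⁻¹ ∈ V) :
    IsGδ {x : X | x ∈ U ∧ (interior (closure (LocalOrbit x U V))).Nonempty} := by
  classical
  set A : Set X := {x : X | x ∈ U ∧ (interior (closure (LocalOrbit x U V))).Nonempty} with hA
  let W : X → Set X := fun x => interior (closure (LocalOrbit x U V))
  let P : Set X → X → Set X := fun B a =>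
    if (B ∩ W a).Nonempty then {x : X | x ∈ U ∧ (LocalOrbit x U V ∩ (B ∩ W a)).Nonempty} else univ
  have hP : ∀ B, IsOpen B → ∀ a, IsOpen (P B a) := by
    intro B hB a
    by_cases h : (B ∩ W a).Nonempty
    · simp only [P, if_pos h]
      exact isOpen_hit hU (hB.inter isOpen_interior)
    · simp only [P, if_neg h]
      exact isOpen_univ
  have e : A = (⋃ a ∈ A, W a ∩ U) ∩ ⋂ B ∈ countableBasis X, ⋃ a ∈ A, (W a ∩ U) ∩ P B a := by
    apply Subset.antisymm
    · intro x hx
      have hxW : x ∈ W x := mem_interior_of_nonempty hU hx.1 hV hx.2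
      refine ⟨mem_biUnion hx ⟨hxW, hx.1⟩, ?_⟩
      simp only [mem_iInter]
      intro B _
      refine mem_biUnion hx ⟨⟨hxW, hx.1⟩, ?_⟩
      by_cases h : (B ∩ W x).Nonempty
      · simp only [P, if_pos h]
        obtain ⟨z, hzB, hzW⟩ := h
        have hB : IsOpen B := isOpen_of_mem_countableBasis (by assumption)
        obtain ⟨w, hw1, hw2⟩ := mem_closure_iff.1 (interior_subset hzW) _
          (hB.inter isOpen_interior) ⟨hzB, hzW⟩
        exact ⟨hx.1, w, hw2, hw1⟩
      · simp only [P, if_neg h]
        trivial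
    · rintro x ⟨hx1, hx2⟩
      simp only [mem_iUnion, exists_prop] at hx1
      obtain ⟨a, ha, hxa, hxU⟩ := hx1
      have hsub : W a ⊆ closure (LocalOrbit x U V) := by
        intro w hw
        rw [mem_closure_iff]
        intro N hN hwN
        obtain ⟨B, hB, hwB, hBN⟩ := (isBasis_countableBasis X).exists_subset_of_mem_open
          (show w ∈ N from hwN) hN
        simp only [mem_iInter, mem_iUnion, exists_prop] at hx2
        obtain ⟨b, hb, ⟨hxb, -⟩, hxP⟩ := hx2 B hB
        have hab : W a = W b := interior_eq hU ha.1 hb.1 hV ⟨x, hxa, hxb⟩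
        have hne : (B ∩ W b).Nonempty := ⟨w, hwB, hab ▸ hw⟩
        simp only [P, if_pos hne] at hxP
        obtain ⟨-, z, hz1, hz2⟩ := hxP
        exact ⟨z, hBN hz2.1, hz1⟩
      exact ⟨hxU, x, interior_maximal hsub isOpen_interior hxa⟩
  rw [e]
  refine IsGδ.inter ?_ ?_
  · exact (isOpen_biUnion fun a _ => isOpen_interior.inter hU).isGδ
  · refine IsGδ.biInter (countable_countableBasis X) fun B hB => IsOpen.isGδ ?_
    exact isOpen_biUnion fun a _ => (isOpen_interior.inter hU).inter
      (hP B (isOpen_of_mem_countableBasis hB) a)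

end

/-- For every Polish group `G` and every Polish `G`-space `X` the set of turbulent points is a
`G_δ` subset of `X`. -/
theorem result (G : Type u) [Group G] [TopologicalSpace G] [IsTopologicalGroup G] [PolishSpace G]
    (X : Type v) [TopologicalSpace X] [PolishSpace X] [MulAction G X] [ContinuousSMul G X] :
    IsGδ {x : X | Turbulent G x} := by
  obtain ⟨b, hb⟩ := (𝓝 (1 : G)).exists_antitone_basis
  let V : ℕ → Set G := fun n => interior (b n) ∩ (interior (b n))⁻¹
  have hVo : ∀ n, IsOpen (V n) := fun n => isOpen_interior.inter isOpen_interior.inv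
  have hV1 : ∀ n, (1 : G) ∈ V n := by
    intro n
    have h1 : (1 : G) ∈ interior (b n) := mem_interior_iff_mem_nhds.2 (hb.1.mem_of_mem trivial)
    refine ⟨h1, ?_⟩
    show (1 : G)⁻¹ ∈ interior (b n)
    rwa [inv_one]
  have hVs : ∀ n, ∀ g ∈ V n, g⁻¹ ∈ V n := by
    rintro n g ⟨h1, h2⟩
    refine ⟨h2, ?_⟩
    show g⁻¹⁻¹ ∈ interior (b n)
    rwa [inv_inv]
  have e : {x : X | Turbulent G x} = ⋂ U ∈ countableBasis X, ⋂ n : ℕ,
      (Uᶜ ∪ {x : X | x ∈ U ∧ (interior (closure (LocalOrbit x U (V n)))).Nonempty}) := by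
    ext x
    simp only [mem_iInter, mem_union, mem_compl_iff]
    constructor
    · intro hx U hU n
      by_cases hxU : x ∈ U
      · exact Or.inr ⟨hxU, hx U (isOpen_of_mem_countableBasis hU) hxU _ (hVo n) (hV1 n) (hVs n)⟩
      · exact Or.inl hxU
    · intro hx U hU hxU W hW h1 _
      obtain ⟨B, hB, hxB, hBU⟩ := (isBasis_countableBasis X).exists_subset_of_mem_open hxU hU
      obtain ⟨n, -, hn⟩ := hb.1.mem_iff.1 (hW.mem_nhds h1)
      rcases hx B hB n with h | ⟨-, h⟩
      · exact absurd hxB h
      · refine h.mono (interior_mono (closure_mono (orbit_mono hBU ?_)))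
        exact (inter_subset_left.trans interior_subset).trans hn
  rw [e]
  refine IsGδ.biInter (countable_countableBasis X) fun U hU => IsGδ.iInter fun n => ?_
  have hUo := isOpen_of_mem_countableBasis hU
  let _ := TopologicalSpace.upgradeIsCompletelyMetrizable X
  exact (IsClosed.isGδ hUo.isClosed_compl).union (isGδ_local hUo (hVs n))

end Pool.Agent.Results.MP_6b7ad2_lc.TurbulentGdelta
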